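import Pool.Agent.H20.Sw3

set_option autoImplicit false

namespace Pool.Agent.Results.MP_598d44_co.Value

theorem result (n : ℕ) (hn : 3 ≤ n) :
    H20Sw.simw (⊤ : SimpleGraph (Fin n)).lineGraph = (n + 2) / 4 :=
  H20Sw.main hn

end Pool.Agent.Results.MP_598d44_co.Value
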